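import Mathlib
import Pool.Agent.V1181.Lap
import Pool.Agent.V1181.Lap2
import Pool.Agent.V1181.Green

/-!
# An unbounded solution of `(-Δ)³ u = V e^{6u}` in dimension six
-/

set_option autoImplicit false

namespace Pool.Agent.Results.MP_885c89_an.Unbounded

open Pool.Agent.V1181
open Real Set Filter MeasureTheory Topology InnerProductSpace Laplacian

noncomputable section

/-- Euclidean space of dimension six. -/
abbrev E6 := EuclideanSpace ℝ (Fin 6)

/-- The smooth cutoff. -/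
def χ (s : ℝ) : ℝ := Real.smoothTransition (2 * s - 1)

/-- The profile `G s = log s / 6` for `s ≥ 1`. -/
def G (s : ℝ) : ℝ := χ s * (1 / 6 * log s)

theorem χ_one {s : ℝ} (h : 1 ≤ s) : χ s = 1 := Real.smoothTransition.one_of_one_le (by linarith)

theorem χ_zero {s : ℝ} (h : s ≤ 1 / 2) : χ s = 0 :=
  Real.smoothTransition.zero_of_nonpos (by linarith)

theorem G_eq {s : ℝ} (h : 1 ≤ s) : G s = 1 / 6 * log s := by rw [G, χ_one h, one_mul]

theorem G_contDiff : ContDiff ℝ (⊤ : ℕ∞) G := by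
  rw [contDiff_iff_contDiffAt]
  intro s
  by_cases hs : s < 1 / 2
  · have : G =ᶠ[𝓝 s] fun _ => 0 := by
      filter_upwards [Iio_mem_nhds hs] with t ht
      rw [G, χ_zero (le_of_lt ht), zero_mul]
    exact contDiffAt_const.congr_of_eventuallyEq this
  · have hs0 : s ≠ 0 := by intro h; rw [h] at hs; norm_num at hs
    have h1 : ContDiff ℝ (⊤ : ℕ∞) χ := by
      unfold χ
      exact Real.smoothTransition.contDiff.comp (by fun_prop)
    have h2 : ContDiffAt ℝ (⊤ : ℕ∞) log s := Real.contDiffAt_log.mpr hs0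
    exact h1.contDiffAt.mul (contDiffAt_const.mul h2)

/-- The logarithmic part. -/
def w (z : E6) : ℝ := G (‖z‖ ^ 2)

/-- The polynomial part. -/
def P (z : E6) : ℝ := -(‖z‖ ^ 2 * (‖z‖ ^ 2 - z 0 ^ 2))

/-- The solution. -/
def u (z : E6) : ℝ := w z + P z

theorem w_contDiff : ContDiff ℝ (⊤ : ℕ∞) w := G_contDiff.comp (contDiff_norm_sq ℝ)

theorem coord_contDiff (i : Fin 6) : ContDiff ℝ (⊤ : ℕ∞) (fun z : E6 => z i) :=
  (EuclideanSpace.proj (𝕜 := ℝ) i).contDiff

theorem P_contDiff : ContDiff ℝ (⊤ : ℕ∞) P := by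
  unfold P
  exact ((contDiff_norm_sq ℝ).mul ((contDiff_norm_sq ℝ).sub ((coord_contDiff 0).pow 2))).neg

theorem u_contDiff : ContDiff ℝ (⊤ : ℕ∞) u := w_contDiff.add P_contDiff

theorem finrank_E6 : (Module.finrank ℝ E6 : ℝ) = 6 := by simp

/-! ### Laplacians outside the unit ball -/

theorem nhds_out {z : E6} (hz : 1 < ‖z‖ ^ 2) : ∀ᶠ y in 𝓝 z, 1 < ‖y‖ ^ 2 := by
  have hc : ContinuousAt (fun y : E6 => ‖y‖ ^ 2) z := by fun_prop
  exact hc.eventually (lt_mem_nhds hz)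

theorem lap1 {z : E6} (hz : 1 < ‖z‖ ^ 2) : Δ w z = 4 / 3 * (‖z‖ ^ 2)⁻¹ := by
  have he : w =ᶠ[𝓝 z] fun y : E6 => (fun s => 1 / 6 * log s) (‖y‖ ^ 2) := by
    filter_upwards [nhds_out hz] with y hy using G_eq hy.le
  have hne : ∀ᶠ s : ℝ in 𝓝 (‖z‖ ^ 2), 0 < s := lt_mem_nhds (by linarith)
  have h0 : ‖z‖ ^ 2 ≠ 0 := by linarith
  rw [(laplacian_congr_nhds he).eq_of_nhds,
    lap_radial (F := fun s => 1 / 6 * log s) (F' := fun s => 1 / 6 * s⁻¹)
      (F'' := 1 / 6 * -((‖z‖ ^ 2) ^ 2)⁻¹) ?_ ?_ ?_, finrank_E6]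
  · field_simp; ring
  · exact contDiffAt_const.mul (Real.contDiffAt_log.mpr h0)
  · filter_upwards [hne] with s hs
    exact (Real.hasDerivAt_log hs.ne').const_mul _
  · exact (hasDerivAt_inv h0).const_mul _

theorem lap2 {z : E6} (hz : 1 < ‖z‖ ^ 2) : Δ (Δ w) z = -(16 / 3) * ((‖z‖ ^ 2) ^ 2)⁻¹ := by
  have he : Δ w =ᶠ[𝓝 z] fun y : E6 => (fun s => 4 / 3 * s⁻¹) (‖y‖ ^ 2) := by
    filter_upwards [nhds_out hz] with y hy using lap1 hy
  have hne : ∀ᶠ s : ℝ in 𝓝 (‖z‖ ^ 2), 0 < s := lt_mem_nhds (by linarith)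
  have h0 : ‖z‖ ^ 2 ≠ 0 := by linarith
  rw [(laplacian_congr_nhds he).eq_of_nhds,
    lap_radial (F := fun s => 4 / 3 * s⁻¹) (F' := fun s => 4 / 3 * -(s ^ 2)⁻¹)
      (F'' := 4 / 3 * (2 * ((‖z‖ ^ 2) ^ 3)⁻¹)) ?_ ?_ ?_, finrank_E6]
  · field_simp; ring
  · exact contDiffAt_const.mul (contDiffAt_inv ℝ h0)
  · filter_upwards [hne] with s hs
    exact (hasDerivAt_inv hs.ne').const_mul _
  · have h1 : HasDerivAt (fun s : ℝ => (s ^ 2)⁻¹) (-(2 * (‖z‖ ^ 2)) / ((‖z‖ ^ 2) ^ 2) ^ 2)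
        (‖z‖ ^ 2) := by
      have h2 := (hasDerivAt_pow 2 (‖z‖ ^ 2)).inv (by positivity)
      refine h2.congr_deriv ?_
      norm_num
    refine (h1.neg.const_mul (4 / 3)).congr_deriv ?_
    field_simp

theorem lap3 {z : E6} (hz : 1 < ‖z‖ ^ 2) : Δ (Δ (Δ w)) z = 0 := by
  have he : Δ (Δ w) =ᶠ[𝓝 z] fun y : E6 => (fun s => -(16 / 3) * (s ^ 2)⁻¹) (‖y‖ ^ 2) := by
    filter_upwards [nhds_out hz] with y hy using lap2 hy
  have hne : ∀ᶠ s : ℝ in 𝓝 (‖z‖ ^ 2), 0 < s := lt_mem_nhds (by linarith)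
  have h0 : ‖z‖ ^ 2 ≠ 0 := by linarith
  have hd : ∀ s : ℝ, s ≠ 0 → HasDerivAt (fun s : ℝ => (s ^ 2)⁻¹) (-2 * (s ^ 3)⁻¹) s := by
    intro s hs
    have h2 := (hasDerivAt_pow 2 s).inv (by positivity)
    refine h2.congr_deriv ?_
    field_simp
    norm_num
    ring
  have hd2 : ∀ s : ℝ, s ≠ 0 → HasDerivAt (fun s : ℝ => (s ^ 3)⁻¹) (-3 * (s ^ 4)⁻¹) s := by
    intro s hs
    have h2 := (hasDerivAt_pow 3 s).inv (by positivity)
    refine h2.congr_deriv ?_
    field_simp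
    norm_num
    ring
  rw [(laplacian_congr_nhds he).eq_of_nhds,
    lap_radial (F := fun s => -(16 / 3) * (s ^ 2)⁻¹) (F' := fun s => -(16 / 3) * (-2 * (s ^ 3)⁻¹))
      (F'' := -(16 / 3) * (-2 * (-3 * ((‖z‖ ^ 2) ^ 4)⁻¹))) ?_ ?_ ?_, finrank_E6]
  · field_simp; ring
  · exact contDiffAt_const.mul ((contDiffAt_id.pow 2).inv (by positivity))
  · filter_upwards [hne] with s hs
    exact (hd s hs.ne').const_mul _
  · exact ((hd2 _ h0).const_mul _).const_mul _

/-! ### Laplacians of the polynomial -/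

theorem sq_line (z : E6) (i : Fin 6) : HasDerivAt
    (fun t : ℝ => ‖z + t • EuclideanSpace.single i (1 : ℝ)‖ ^ 2) (2 * z i) 0 := by
  have h1 : ∀ t : ℝ, ‖z + t • EuclideanSpace.single i (1 : ℝ)‖ ^ 2 = ‖z‖ ^ 2 + 2 * z i * t + t ^ 2 := by
    intro t
    rw [norm_add_sq_real, norm_smul, inner_smul_right]
    simp [EuclideanSpace.inner_single_right]
    ring
  have h2 : HasDerivAt (fun t : ℝ => ‖z‖ ^ 2 + 2 * z i * t + t ^ 2)
      (0 + 2 * z i * 1 + 2 * (0 : ℝ)) 0 := by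
    have a1 : HasDerivAt (fun t : ℝ => 2 * z i * t) (2 * z i * 1) 0 :=
      (hasDerivAt_id (0 : ℝ)).const_mul _
    have a2 : HasDerivAt (fun t : ℝ => t ^ 2) (2 * (0 : ℝ)) 0 := by
      simpa using hasDerivAt_pow 2 (0 : ℝ)
    exact (((hasDerivAt_const (0 : ℝ) (‖z‖ ^ 2)).add a1).add a2)
  simp only [zero_add, mul_one, mul_zero, add_zero] at h2
  exact h2.congr_of_eventuallyEq (Filter.Eventually.of_forall fun t => h1 t)

theorem coord_line (z : E6) (i j : Fin 6) : HasDerivAt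
    (fun t : ℝ => (z + t • EuclideanSpace.single i (1 : ℝ)) j) (if j = i then 1 else 0) 0 := by
  have h1 : ∀ t : ℝ, (z + t • EuclideanSpace.single i (1 : ℝ)) j
      = z j + t * (if j = i then 1 else 0) := by
    intro t
    simp
  have h2 : HasDerivAt (fun t : ℝ => z j + t * (if j = i then (1 : ℝ) else 0))
      (0 + 1 * (if j = i then 1 else 0)) 0 :=
    (hasDerivAt_const _ _).add ((hasDerivAt_id (0 : ℝ)).mul_const _)
  simp only [zero_add, one_mul] at h2
  exact h2.congr_of_eventuallyEq (Filter.Eventually.of_forall fun t => h1 t)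

theorem lapP1 (z : E6) : Δ P z = -30 * ‖z‖ ^ 2 + 20 * z 0 ^ 2 := by
  rw [lap_eq (EuclideanSpace.basisFun (Fin 6) ℝ) (P_contDiff.contDiffAt.of_le (by norm_cast))
    (fun i y => -(2 * y i * (‖y‖ ^ 2 - y 0 ^ 2)
      + ‖y‖ ^ 2 * (2 * y i - 2 * y 0 * (if (0 : Fin 6) = i then 1 else 0))))
    (fun i => -((2 * (z i * (2 * z i - 2 * z 0 * (if (0 : Fin 6) = i then 1 else 0)))
        + 2 * (‖z‖ ^ 2 - z 0 ^ 2))
      + (2 * z i * (2 * z i - 2 * z 0 * (if (0 : Fin 6) = i then 1 else 0))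
        + ‖z‖ ^ 2 * (2 - 2 * (if (0 : Fin 6) = i then 1 else 0)))))]
  · have hn : ‖z‖ ^ 2 = ∑ i : Fin 6, z i ^ 2 := by
      rw [EuclideanSpace.norm_sq_eq]; simp
    rw [hn]
    simp only [Fin.sum_univ_six]
    norm_num [Fin.ext_iff]
    ring
  · intro i
    filter_upwards with y
    rw [EuclideanSpace.basisFun_apply]
    have h1 := sq_line y i
    have h2 := coord_line y i 0
    have h3 := (h1.mul (h1.sub (h2.pow 2))).neg
    refine h3.congr_deriv ?_
    simp
  · intro i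
    rw [EuclideanSpace.basisFun_apply]
    have h1 := sq_line z i
    have h2 := coord_line z i 0
    have h3 := coord_line z i i
    have h4 := (((h3.const_mul 2).mul (h1.sub (h2.pow 2))).add
      (h1.mul ((h3.const_mul 2).sub ((h2.const_mul 2).mul_const
        (if (0 : Fin 6) = i then (1 : ℝ) else 0))))).neg
    refine h4.congr_deriv ?_
    simp
    split_ifs <;> ring

theorem lapP2 (z : E6) : Δ (Δ P) z = -320 := by
  have he : Δ P = fun z : E6 => -30 * ‖z‖ ^ 2 + 20 * z 0 ^ 2 := funext lapP1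
  rw [he, lap_eq (EuclideanSpace.basisFun (Fin 6) ℝ) ?_
    (fun i y => -30 * (2 * y i) + 20 * (2 * y 0 * (if (0 : Fin 6) = i then 1 else 0)))
    (fun i => -60 + 40 * (if (0 : Fin 6) = i then 1 else 0))]
  · simp only [Fin.sum_univ_six]
    norm_num [Fin.ext_iff]
  · intro i
    filter_upwards with y
    rw [EuclideanSpace.basisFun_apply]
    have h1 := sq_line y i
    have h2 := coord_line y i 0
    have h3 := (h1.const_mul (-30)).add ((h2.pow 2).const_mul 20)
    refine h3.congr_deriv ?_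
    simp
  · intro i
    rw [EuclideanSpace.basisFun_apply]
    have h2 := coord_line z i 0
    have h3 := coord_line z i i
    have h4 := ((h3.const_mul 2).const_mul (-30)).add (((h2.const_mul 2).mul_const
        (if (0 : Fin 6) = i then (1 : ℝ) else 0)).const_mul 20)
    refine h4.congr_deriv ?_
    simp
    split_ifs <;> norm_num
  · have h1 : ContDiff ℝ 2 (fun z : E6 => ‖z‖ ^ 2) := contDiff_norm_sq ℝ
    have h2 : ContDiff ℝ 2 (fun z : E6 => z 0) := (EuclideanSpace.proj (𝕜 := ℝ) (0 : Fin 6)).contDiff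
    exact ((contDiff_const.mul h1).add (contDiff_const.mul (h2.pow 2))).contDiffAt

theorem lapP3 (z : E6) : Δ (Δ (Δ P)) z = 0 := by
  have he : Δ (Δ P) = fun _ : E6 => (-320 : ℝ) := funext lapP2
  rw [he]
  simp

/-! ### The operator `(-Δ)^m` and integration by parts -/

/-- The operator `-Δ`. -/
def negLap {n : ℕ} (f : EuclideanSpace ℝ (Fin n) → ℝ) : EuclideanSpace ℝ (Fin n) → ℝ :=
  fun x => -(Δ f x)

theorem negLap_contDiff {n : ℕ} {f : EuclideanSpace ℝ (Fin n) → ℝ}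
    (hf : ContDiff ℝ (⊤ : ℕ∞) f) : ContDiff ℝ (⊤ : ℕ∞) (negLap f) :=
  (contDiff_laplacian hf).neg

theorem negLap_support {n : ℕ} {f : EuclideanSpace ℝ (Fin n) → ℝ}
    (hf : HasCompactSupport f) : HasCompactSupport (negLap f) := by
  refine HasCompactSupport.intro hf fun x hx => ?_
  have h1 : f =ᶠ[𝓝 x] fun _ => (0 : ℝ) := by
    have := (isClosed_tsupport f).isOpen_compl.mem_nhds hx
    filter_upwards [this] with y hy
    exact image_eq_zero_of_notMem_tsupport hy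
  rw [negLap, (laplacian_congr_nhds h1).eq_of_nhds]
  simp

theorem green_negLap {n : ℕ} {f φ : EuclideanSpace ℝ (Fin n) → ℝ}
    (hf : ContDiff ℝ (⊤ : ℕ∞) f) (hφ : ContDiff ℝ (⊤ : ℕ∞) φ) (hc : HasCompactSupport φ) :
    ∫ x, f x * negLap φ x = ∫ x, negLap f x * φ x := by
  have h := green (volume : Measure (EuclideanSpace ℝ (Fin n))) (contDiff_infty.1 hf 2)
    (contDiff_infty.1 hφ 2) hc
  simp only [negLap, mul_neg, neg_mul, integral_neg, h]

theorem green_iter {n : ℕ} (k : ℕ) {f φ : EuclideanSpace ℝ (Fin n) → ℝ}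
    (hf : ContDiff ℝ (⊤ : ℕ∞) f) (hφ : ContDiff ℝ (⊤ : ℕ∞) φ) (hc : HasCompactSupport φ) :
    ∫ x, f x * negLap^[k] φ x = ∫ x, negLap^[k] f x * φ x := by
  induction k generalizing f φ with
  | zero => rfl
  | succ k ih =>
    rw [Function.iterate_succ_apply, Function.iterate_succ_apply']
    rw [ih hf (negLap_contDiff hφ) (negLap_support hc)]
    have hk : ∀ j : ℕ, ContDiff ℝ (⊤ : ℕ∞) (negLap^[j] f) := by
      intro j
      induction j with
      | zero => exact hf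
      | succ j ihj => rw [Function.iterate_succ_apply']; exact negLap_contDiff ihj
    exact green_negLap (hk k) hφ hc

theorem iter_u (z : E6) : negLap^[3] u z = -(Δ (Δ (Δ w)) z) := by
  have hw1 := contDiff_laplacian w_contDiff
  have hw2 := contDiff_laplacian hw1
  have hP1 := contDiff_laplacian P_contDiff
  have hP2 := contDiff_laplacian hP1
  have hadd : ∀ {f h : E6 → ℝ}, ContDiff ℝ (⊤ : ℕ∞) f → ContDiff ℝ (⊤ : ℕ∞) h →
      Δ (f + h) = Δ f + Δ h := by
    intro f h hf hh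
    funext x
    exact (contDiff_infty.1 hf 2).contDiffAt.laplacian_add (contDiff_infty.1 hh 2).contDiffAt
  have e1 : negLap u = -(Δ w + Δ P) := by
    funext x
    rw [← hadd w_contDiff P_contDiff]
    rfl
  have e2 : negLap (negLap u) = Δ (Δ w) + Δ (Δ P) := by
    funext x
    rw [e1, ← hadd hw1 hP1]
    simp only [negLap]
    rw [laplacian_neg, Pi.neg_apply, neg_neg]
  have e3 : negLap (negLap (negLap u)) = -(Δ (Δ (Δ w)) + Δ (Δ (Δ P))) := by
    funext x
    rw [e2, ← hadd hw2 hP2]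
    rfl
  have e4 : negLap^[3] u = negLap (negLap (negLap u)) := rfl
  rw [e4, e3, Pi.neg_apply, Pi.add_apply, lapP3, add_zero]

/-- The potential. -/
def V (z : E6) : ℝ := exp (-(6 * u z)) * -(Δ (Δ (Δ w)) z)

theorem V_continuous : Continuous V := by
  have h1 : Continuous (Δ (Δ (Δ w))) :=
    (contDiff_laplacian (contDiff_laplacian (contDiff_laplacian w_contDiff))).continuous
  have h2 : Continuous u := u_contDiff.continuous
  unfold V
  exact (Real.continuous_exp.comp (continuous_const.mul h2).neg).mul h1.neg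

theorem V_support : HasCompactSupport V := by
  refine HasCompactSupport.intro (isCompact_closedBall (0 : E6) 1) fun z hz => ?_
  have h1 : 1 < ‖z‖ := by
    rw [mem_closedBall_zero_iff, not_le] at hz
    exact hz
  rw [V, lap3 (by nlinarith), neg_zero, mul_zero]

theorem V_eq (z : E6) : V z * exp (6 * u z) = negLap^[3] u z := by
  rw [iter_u, V, mul_comm, ← mul_assoc, ← exp_add]
  simp

/-! ### Integrability -/

theorem w_le (z : E6) : 6 * w z ≤ log (1 + ‖z‖ ^ 2) := by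
  have h0 : 0 ≤ log (1 + ‖z‖ ^ 2) := Real.log_nonneg (by nlinarith [sq_nonneg ‖z‖])
  have hχ0 : 0 ≤ χ (‖z‖ ^ 2) := Real.smoothTransition.nonneg _
  have hχ1 : χ (‖z‖ ^ 2) ≤ 1 := Real.smoothTransition.le_one _
  by_cases h : 0 < ‖z‖ ^ 2
  · have h1 : log (‖z‖ ^ 2) ≤ log (1 + ‖z‖ ^ 2) := Real.log_le_log h (by linarith)
    rw [w, G]
    have h2 : χ (‖z‖ ^ 2) * log (‖z‖ ^ 2) ≤ χ (‖z‖ ^ 2) * log (1 + ‖z‖ ^ 2) :=
      mul_le_mul_of_nonneg_left h1 hχ0
    nlinarith
  · have h2 : ‖z‖ ^ 2 = 0 := le_antisymm (not_lt.mp h) (sq_nonneg _)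
    rw [w, G, h2, χ_zero (by norm_num)]
    simp

theorem real_bound {x Y : ℝ} (hY : 0 < Y) :
    (1 + (x ^ 2 + Y)) * exp (-(6 * ((x ^ 2 + Y) * Y)))
      ≤ exp (3 / 2) * ((1 + x ^ 2)⁻¹ * ((Y ^ 2)⁻¹ * exp (-2 * Y))) := by
  set A := 1 + x ^ 2 with hA
  have hA1 : 1 ≤ A := by rw [hA]; nlinarith [sq_nonneg x]
  have hx : x ^ 2 = A - 1 := by rw [hA]; ring
  rw [hx]
  have h1 : (A + Y) * A * Y ^ 2 ≤ exp (3 * A * Y) := by
    have h2 : (A + Y) ≤ A * exp Y := by
      have := Real.add_one_le_exp Y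
      nlinarith
    have h3 : (A * Y) ^ 2 ≤ exp (2 * (A * Y)) := by
      have h4 := Real.add_one_le_exp (A * Y)
      have h5 : 0 ≤ A * Y := by positivity
      have h6 : exp (2 * (A * Y)) = exp (A * Y) ^ 2 := by
        rw [← Real.exp_nat_mul]; norm_num
      rw [h6]
      nlinarith [Real.exp_pos (A * Y)]
    calc (A + Y) * A * Y ^ 2 ≤ (A * exp Y) * A * Y ^ 2 := by gcongr
      _ = (A * Y) ^ 2 * exp Y := by ring
      _ ≤ exp (2 * (A * Y)) * exp Y := by gcongr
      _ = exp (2 * (A * Y) + Y) := by rw [exp_add]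
      _ ≤ exp (3 * A * Y) := by
        apply Real.exp_le_exp.mpr
        nlinarith
  have hAY : 0 < A * Y ^ 2 := by positivity
  have h7 : (1 + (A - 1 + Y)) = A + Y := by ring
  rw [h7]
  have h8 : A + Y ≤ exp (3 * A * Y) * (A⁻¹ * (Y ^ 2)⁻¹) := by
    rw [← mul_inv, le_mul_inv_iff₀ hAY]
    linarith
  calc (A + Y) * exp (-(6 * ((A - 1 + Y) * Y)))
      ≤ (exp (3 * A * Y) * (A⁻¹ * (Y ^ 2)⁻¹)) * exp (-(6 * ((A - 1 + Y) * Y))) := by gcongr
    _ = (A⁻¹ * (Y ^ 2)⁻¹) * exp (3 * A * Y + -(6 * ((A - 1 + Y) * Y))) := by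
      rw [exp_add]; ring
    _ ≤ (A⁻¹ * (Y ^ 2)⁻¹) * exp (3 / 2 + -2 * Y) := by
      have h9 : 3 * A * Y + -(6 * ((A - 1 + Y) * Y)) ≤ 3 / 2 + -2 * Y := by
        nlinarith [sq_nonneg (12 * Y - 5), mul_nonneg (sub_nonneg.mpr hA1) hY.le]
      gcongr
    _ = _ := by rw [exp_add]; ring

theorem weight_integrable : Integrable fun t : ℝ => |t| ^ (-(4 / 5) : ℝ) * exp (-2 * t ^ 2) := by
  have h1 := integrable_rpow_mul_exp_neg_mul_sq (b := 2) (by norm_num) (s := -(4 / 5))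
    (by norm_num)
  have hcos : 1 / 2 ≤ |cos (-(4 / 5) * π)| := by
    have e : -(4 / 5) * π = π / 5 - π := by ring
    rw [e, cos_sub_pi, abs_neg, Real.cos_pi_div_five]
    have h5 : 0 ≤ √5 := Real.sqrt_nonneg 5
    have h6 : 2 ≤ √5 := by
      rw [Real.le_sqrt' (by norm_num)]
      norm_num
    rw [abs_of_pos (by positivity)]
    linarith
  refine Integrable.mono' (h1.norm.const_mul 2) ?_ ?_
  · refine Measurable.aestronglyMeasurable ?_
    fun_prop
  · refine Filter.Eventually.of_forall fun t => ?_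
    rw [Real.norm_eq_abs, Real.norm_eq_abs, abs_mul, abs_mul, abs_of_pos (exp_pos _), ← mul_assoc]
    refine mul_le_mul_of_nonneg_right ?_ (exp_pos _).le
    rcases le_or_gt 0 t with h | h
    · rw [abs_of_nonneg h]
      have := abs_nonneg (t ^ (-(4 / 5) : ℝ))
      linarith
    · have e1 : |t| ^ (-(4 / 5) : ℝ) = exp (log t * (-(4 / 5))) := by
        rw [Real.rpow_def_of_pos (abs_pos.mpr h.ne), Real.log_abs]
      have e2 : t ^ (-(4 / 5) : ℝ) = exp (log t * (-(4 / 5))) * cos (-(4 / 5) * π) :=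
        Real.rpow_def_of_neg h _
      rw [e1, e2, abs_mul, abs_of_pos (exp_pos _)]
      have := exp_pos (log t * (-(4 / 5)))
      nlinarith

/-- The dominating function. -/
def dom (i : Fin 6) (t : ℝ) : ℝ :=
  if i = 0 then (1 + t ^ 2)⁻¹ else |t| ^ (-(4 / 5) : ℝ) * exp (-2 * t ^ 2)

theorem dom_integrable : Integrable fun y : Fin 6 → ℝ => ∏ i, dom i (y i) := by
  refine Integrable.fintype_prod fun i => ?_
  by_cases h : i = 0
  · have : dom i = fun t => (1 + t ^ 2)⁻¹ := by funext t; simp [dom, h]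
    rw [this]
    exact integrable_inv_one_add_sq
  · have : dom i = fun t => |t| ^ (-(4 / 5) : ℝ) * exp (-2 * t ^ 2) := by funext t; simp [dom, h]
    rw [this]
    exact weight_integrable

theorem pointwise {z : E6} (hz : ∀ i, z i ≠ 0) :
    exp (6 * u z) ≤ exp (3 / 2) * ∏ i, dom i (z i) := by
  set Y : ℝ := ∑ i : Fin 5, z i.succ ^ 2 with hY
  have hn : ‖z‖ ^ 2 = z 0 ^ 2 + Y := by
    rw [EuclideanSpace.norm_sq_eq, Fin.sum_univ_succ]
    simp [hY]
  have hYi : ∀ i : Fin 5, z i.succ ^ 2 ≤ Y := fun i =>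
    Finset.single_le_sum (f := fun i : Fin 5 => z i.succ ^ 2) (fun j _ => sq_nonneg _)
      (Finset.mem_univ i)
  have hYpos : 0 < Y := lt_of_lt_of_le (by have := hz (Fin.succ 0); positivity) (hYi 0)
  have h1 : exp (6 * u z) ≤ (1 + (z 0 ^ 2 + Y)) * exp (-(6 * ((z 0 ^ 2 + Y) * Y))) := by
    have e : 6 * u z = 6 * w z + -(6 * ((z 0 ^ 2 + Y) * Y)) := by
      rw [u, P, hn]; ring
    rw [e, exp_add]
    have h2 : exp (6 * w z) ≤ 1 + (z 0 ^ 2 + Y) := by
      have h3 := Real.exp_le_exp.mpr (w_le z)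
      rw [hn, Real.exp_log (by positivity)] at h3
      exact h3
    gcongr
  refine h1.trans ((real_bound hYpos).trans ?_)
  rw [Fin.prod_univ_succ]
  have e0 : dom 0 (z 0) = (1 + z 0 ^ 2)⁻¹ := by simp [dom]
  have es : ∀ i : Fin 5, dom i.succ (z i.succ)
      = (|z i.succ| ^ (4 / 5 : ℝ))⁻¹ * exp (-2 * z i.succ ^ 2) := by
    intro i
    rw [dom, if_neg (Fin.succ_ne_zero i), Real.rpow_neg (abs_nonneg _)]
  rw [e0]
  simp only [es]
  rw [Finset.prod_mul_distrib, Finset.prod_inv_distrib, ← Real.exp_sum, ← Finset.mul_sum, ← hY]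
  have h4 : ∏ i : Fin 5, |z i.succ| ^ (4 / 5 : ℝ) ≤ Y ^ 2 := by
    have h5 : ∀ i : Fin 5, |z i.succ| ^ (4 / 5 : ℝ) ≤ Y ^ (2 / 5 : ℝ) := by
      intro i
      have e5 : |z i.succ| ^ (4 / 5 : ℝ) = (z i.succ ^ 2) ^ (2 / 5 : ℝ) := by
        rw [← sq_abs, ← Real.rpow_natCast, ← Real.rpow_mul (abs_nonneg _)]
        norm_num
      rw [e5]
      exact Real.rpow_le_rpow (sq_nonneg _) (hYi i) (by norm_num)
    calc ∏ i : Fin 5, |z i.succ| ^ (4 / 5 : ℝ) ≤ ∏ _i : Fin 5, Y ^ (2 / 5 : ℝ) :=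
          Finset.prod_le_prod (fun i _ => by positivity) fun i _ => h5 i
      _ = Y ^ 2 := by
        rw [Finset.prod_const, Finset.card_univ, Fintype.card_fin, ← Real.rpow_natCast,
          ← Real.rpow_mul hYpos.le]
        norm_num
  have h6 : 0 < ∏ i : Fin 5, |z i.succ| ^ (4 / 5 : ℝ) :=
    Finset.prod_pos fun i _ => Real.rpow_pos_of_pos (abs_pos.mpr (hz _)) _
  gcongr

theorem u_integrable : Integrable fun z : E6 => exp (6 * u z) := by
  have hmp := (EuclideanSpace.volume_preserving_symm_measurableEquiv_toLp (Fin 6)).symm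
  rw [← hmp.integrable_comp_emb (MeasurableEquiv.measurableEmbedding _)]
  have hc : Continuous fun z : E6 => exp (6 * u z) :=
    Real.continuous_exp.comp (continuous_const.mul u_contDiff.continuous)
  refine Integrable.mono' (dom_integrable.const_mul (exp (3 / 2))) ?_ ?_
  · exact (hc.measurable.comp (MeasurableEquiv.measurable _)).aestronglyMeasurable
  · have hae : ∀ᵐ y : Fin 6 → ℝ, ∀ i, y i ≠ 0 := by
      rw [ae_all_iff]
      intro i
      exact Measure.ae_eval_ne _ i 0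
    filter_upwards [hae] with y hy
    rw [Real.norm_eq_abs, Function.comp_apply, abs_of_pos (exp_pos _)]
    exact pointwise (z := WithLp.toLp 2 y) hy

theorem u_unbounded : ¬ ∃ C : ℝ, ∀ᵐ z : E6, u z ≤ C := by
  rintro ⟨C, hC⟩
  have hclosed : IsClosed {z : E6 | u z ≤ C} := isClosed_le u_contDiff.continuous continuous_const
  have hall : ∀ z : E6, u z ≤ C := by
    have hd : Dense {z : E6 | u z ≤ C} := Measure.dense_of_ae hC
    intro z
    have := hd.closure_eq ▸ mem_univ z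
    rw [hclosed.closure_eq] at this
    exact this
  set R := exp (3 * |C| + 1) with hR
  have hR1 : 1 ≤ R := Real.one_le_exp (by positivity)
  set z : E6 := EuclideanSpace.single 0 R with hz
  have hn : ‖z‖ ^ 2 = R ^ 2 := by rw [hz]; simp
  have h0 : z 0 = R := by rw [hz]; simp
  have h1 : u z = 1 / 6 * (2 * (3 * |C| + 1)) := by
    rw [u, P, w, hn, h0, G_eq (by nlinarith), sub_self, mul_zero, neg_zero, add_zero,
      Real.log_pow, hR, Real.log_exp]
    norm_num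
  have h2 := hall z
  rw [h1] at h2
  have := le_abs_self C
  linarith

/-- There are an integer `m ≥ 2` (namely `m = 3`), a bounded function `V` (even continuous with
compact support) and a smooth function `u` on `ℝ^{2m}` with `e^{2mu}` integrable and
`(-Δ)^m u = V e^{2mu}` in the sense of distributions, such that `u` is not essentially bounded from
above. -/
theorem result : ∃ m : ℕ, 2 ≤ m ∧ ∃ V u : EuclideanSpace ℝ (Fin (2 * m)) → ℝ,
    Continuous V ∧ HasCompactSupport V ∧ (∃ C, ∀ x, |V x| ≤ C) ∧ ContDiff ℝ (⊤ : ℕ∞) u ∧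
    Integrable (fun x => exp (2 * m * u x)) ∧
    (∀ φ : EuclideanSpace ℝ (Fin (2 * m)) → ℝ, ContDiff ℝ (⊤ : ℕ∞) φ → HasCompactSupport φ →
      ∫ x, u x * negLap^[m] φ x = ∫ x, V x * exp (2 * m * u x) * φ x) ∧
    (∀ x, negLap^[m] u x = V x * exp (2 * m * u x)) ∧
    ¬ ∃ C : ℝ, ∀ᵐ x, u x ≤ C := by
  have e6 : (2 : ℝ) * ((3 : ℕ) : ℝ) = 6 := by norm_num
  refine ⟨3, by norm_num, V, u, V_continuous, V_support, ?_, u_contDiff, ?_, ?_, ?_, u_unbounded⟩
  · obtain ⟨C, hC⟩ := V_support.exists_bound_of_continuous V_continuous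
    exact ⟨C, fun x => hC x⟩
  · simp only [e6]
    exact u_integrable
  · intro φ hφ hc
    simp only [e6]
    have h1 := green_iter (n := 6) 3 u_contDiff hφ hc
    refine h1.trans ?_
    refine integral_congr_ae (Filter.Eventually.of_forall fun x => ?_)
    show negLap^[3] u x * φ x = V x * exp (6 * u x) * φ x
    rw [V_eq]
  · intro x
    simp only [e6]
    exact (V_eq x).symm

end

end Pool.Agent.Results.MP_885c89_an.Unbounded
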